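import Mathlib
import Pool.Agent.Lib.MP_2c1b2b_gt.Interfaces

/-!
# Lewis position

For vectors `v i` spanning `ℝⁿ`, `n ≥ 1`, there is an invertible linear map `A` with
`A (v i) = c i • u i`, `‖u i‖ = 1`, `c i ≥ 0` and `∑ c i ⟨u i, x⟩² = ‖x‖²`.
-/

open Finset

namespace Pool.Agent.Lib.MP_2c1b2b_gt.H45

variable {n N : ℕ}

/-- The functional `B ↦ ∑ ‖B (v i)‖`. -/
noncomputable def lewF (v : Fin N → EuclideanSpace ℝ (Fin n))
    (B : EuclideanSpace ℝ (Fin n) →L[ℝ] EuclideanSpace ℝ (Fin n)) : ℝ := ∑ i, ‖B (v i)‖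

theorem lewF_nonneg (v : Fin N → EuclideanSpace ℝ (Fin n)) (B) : 0 ≤ lewF v B :=
  sum_nonneg fun _ _ => norm_nonneg _

theorem continuous_lewF (v : Fin N → EuclideanSpace ℝ (Fin n)) : Continuous (lewF v) := by
  unfold lewF
  fun_prop

theorem lewF_smul (v : Fin N → EuclideanSpace ℝ (Fin n)) (r : ℝ) (B) :
    lewF v (r • B) = |r| * lewF v B := by
  unfold lewF
  rw [mul_sum]
  refine sum_congr rfl fun i _ => ?_
  simp [norm_smul]

theorem lewF_eq_zero {v : Fin N → EuclideanSpace ℝ (Fin n)}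
    (hv : Submodule.span ℝ (Set.range v) = ⊤) {B} (h : lewF v B = 0) : B = 0 := by
  unfold lewF at h
  rw [sum_eq_zero_iff_of_nonneg fun _ _ => norm_nonneg _] at h
  have h1 : (B : EuclideanSpace ℝ (Fin n) →ₗ[ℝ] EuclideanSpace ℝ (Fin n)) = 0 := by
    apply LinearMap.ext_on_range hv
    intro i
    simpa using h i (mem_univ i)
  ext1 x
  have := LinearMap.congr_fun h1 x
  simpa using this

theorem lewF_bound {v : Fin N → EuclideanSpace ℝ (Fin n)} (hn : 0 < n)
    (hv : Submodule.span ℝ (Set.range v) = ⊤) : ∃ m : ℝ, 0 < m ∧ ∀ B, m * ‖B‖ ≤ lewF v B := by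
  have : Nonempty (Fin n) := ⟨⟨0, hn⟩⟩
  have : Nontrivial (EuclideanSpace ℝ (Fin n)) := inferInstance
  obtain ⟨B₀, hB₀, hmin⟩ := (isCompact_sphere (0 : EuclideanSpace ℝ (Fin n) →L[ℝ]
    EuclideanSpace ℝ (Fin n)) 1).exists_isMinOn
    (NormedSpace.sphere_nonempty.2 zero_le_one) (continuous_lewF v).continuousOn
  have hB₀1 : ‖B₀‖ = 1 := by simpa using hB₀
  have hpos : 0 < lewF v B₀ := by
    refine lt_of_le_of_ne (lewF_nonneg _ _) fun h => ?_
    have := lewF_eq_zero hv h.symm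
    rw [this, norm_zero] at hB₀1
    exact zero_ne_one hB₀1
  refine ⟨lewF v B₀, hpos, fun B => ?_⟩
  by_cases hB : B = 0
  · subst hB
    simp [lewF_nonneg]
  have hBn : 0 < ‖B‖ := norm_pos_iff.2 hB
  have h1 : (‖B‖⁻¹ • B) ∈ Metric.sphere (0 : EuclideanSpace ℝ (Fin n) →L[ℝ]
      EuclideanSpace ℝ (Fin n)) 1 := by
    simp [norm_smul, hBn.ne']
  have h2 := hmin h1
  simp only [Set.mem_ofPred_eq] at h2
  rw [lewF_smul, abs_of_pos (inv_pos.2 hBn)] at h2
  calc lewF v B₀ * ‖B‖ ≤ (‖B‖⁻¹ * lewF v B) * ‖B‖ := by gcongr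
    _ = lewF v B := by field_simp

/-- The maximiser of the determinant. -/
theorem exists_max {v : Fin N → EuclideanSpace ℝ (Fin n)} (hn : 0 < n)
    (hv : Submodule.span ℝ (Set.range v) = ⊤) :
    ∃ B : EuclideanSpace ℝ (Fin n) →L[ℝ] EuclideanSpace ℝ (Fin n), B.det ≠ 0 ∧ lewF v B = 1 ∧
      ∀ C : EuclideanSpace ℝ (Fin n) →L[ℝ] EuclideanSpace ℝ (Fin n),
        |C.det| ≤ |B.det| * lewF v C ^ n := by
  obtain ⟨m, hm, hb⟩ := lewF_bound hn hv
  set S : Set (EuclideanSpace ℝ (Fin n) →L[ℝ] EuclideanSpace ℝ (Fin n)) := {B | lewF v B ≤ 1}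
    with hS
  have hcl : IsClosed S := isClosed_le (continuous_lewF v) continuous_const
  have hbd : S ⊆ Metric.closedBall 0 (1 / m) := by
    intro B hB
    rw [mem_closedBall_zero_iff, le_div_iff₀ hm, mul_comm]
    exact (hb B).trans hB
  have hcomp : IsCompact S := (isCompact_closedBall _ _).of_isClosed_subset hcl hbd
  have hdetc : Continuous fun f : EuclideanSpace ℝ (Fin n) →L[ℝ] EuclideanSpace ℝ (Fin n) =>
      |f.det| := continuous_abs.comp ContinuousLinearMap.continuous_det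
  obtain ⟨B, hB, hmax⟩ := hcomp.exists_isMaxOn ⟨0, by simp [hS, lewF]⟩ hdetc.continuousOn
  have hdet_smul : ∀ (r : ℝ) (C : EuclideanSpace ℝ (Fin n) →L[ℝ] EuclideanSpace ℝ (Fin n)),
      (r • C).det = r ^ n * C.det := by
    intro r C
    have := LinearMap.det_smul r (C : EuclideanSpace ℝ (Fin n) →ₗ[ℝ] EuclideanSpace ℝ (Fin n))
    rw [finrank_euclideanSpace, Fintype.card_fin] at this
    exact this
  have key : ∀ C : EuclideanSpace ℝ (Fin n) →L[ℝ] EuclideanSpace ℝ (Fin n),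
      |C.det| ≤ |B.det| * lewF v C ^ n := by
    intro C
    by_cases hC : lewF v C = 0
    · have h0 := lewF_eq_zero hv hC
      subst h0
      have : (0 : EuclideanSpace ℝ (Fin n) →L[ℝ] EuclideanSpace ℝ (Fin n)).det = 0 := by
        have h00 : ((0 : ℝ) • (0 : EuclideanSpace ℝ (Fin n) →L[ℝ] EuclideanSpace ℝ (Fin n))) = 0 := by
          ext1 x
          simp
        have := hdet_smul 0 0
        rwa [zero_pow hn.ne', zero_mul, h00] at this
      rw [this, abs_zero]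
      exact mul_nonneg (abs_nonneg _) (pow_nonneg (lewF_nonneg _ _) _)
    · have hpos : 0 < lewF v C := lt_of_le_of_ne (lewF_nonneg _ _) (Ne.symm hC)
      have h1 : (lewF v C)⁻¹ • C ∈ S := by
        rw [hS, Set.mem_ofPred_eq, lewF_smul, abs_of_pos (inv_pos.2 hpos), inv_mul_cancel₀ hC]
      have h2 := hmax h1
      simp only [Set.mem_ofPred_eq] at h2
      rw [hdet_smul, abs_mul, abs_pow, abs_of_pos (inv_pos.2 hpos)] at h2
      have h3 : 0 < lewF v C ^ n := pow_pos hpos n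
      rw [inv_pow, inv_mul_le_iff₀ h3] at h2
      linarith [mul_comm (lewF v C ^ n) |B.det|]
  have hB0 : B.det ≠ 0 := by
    intro h0
    have h1 := key (ContinuousLinearMap.id ℝ _)
    rw [h0, abs_zero, zero_mul] at h1
    have h2 : (ContinuousLinearMap.id ℝ (EuclideanSpace ℝ (Fin n))).det = 1 := LinearMap.det_id
    rw [h2, abs_one] at h1
    linarith
  refine ⟨B, hB0, le_antisymm hB ?_, key⟩
  have h1 := key B
  have h2 : 0 < |B.det| := abs_pos.2 hB0
  have h3 : 1 ≤ lewF v B ^ n := by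
    by_contra hcon
    push Not at hcon
    nlinarith
  by_contra hcon
  push Not at hcon
  exact absurd (pow_lt_one₀ (lewF_nonneg _ _) hcon hn.ne') (not_lt.2 h3)

/-- Derivative of `t ↦ ‖w + t • h‖` at `0`. -/
theorem hasDerivAt_norm_line {E : Type*} [NormedAddCommGroup E] [InnerProductSpace ℝ E]
    {w : E} (hw : w ≠ 0) (h : E) :
    HasDerivAt (fun t : ℝ => ‖w + t • h‖) (inner ℝ w h / ‖w‖) 0 := by
  have h1 : HasDerivAt (fun t : ℝ => w + t • h) h 0 := by
    simpa using ((hasDerivAt_id (0 : ℝ)).smul_const h).const_add w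
  have h2 := h1.norm_sq
  have h3 : ‖w + (0 : ℝ) • h‖ ^ 2 ≠ 0 := by
    simpa using hw
  have h4 := h2.sqrt h3
  have h5 : (fun t : ℝ => √(‖w + t • h‖ ^ 2)) = fun t : ℝ => ‖w + t • h‖ := by
    funext t
    exact Real.sqrt_sq (norm_nonneg _)
  rw [h5] at h4
  convert h4 using 1
  rw [zero_smul, add_zero, Real.sqrt_sq (norm_nonneg _)]
  have : ‖w‖ ≠ 0 := by simpa using hw
  field_simp

theorem det_rankOne (x : EuclideanSpace ℝ (Fin n)) (t : ℝ)
    (B : EuclideanSpace ℝ (Fin n) →L[ℝ] EuclideanSpace ℝ (Fin n)) :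
    ((ContinuousLinearMap.id ℝ (EuclideanSpace ℝ (Fin n)) +
      t • (innerSL ℝ x).smulRight x).comp B).det = (1 + t * ‖x‖ ^ 2) * B.det := by
  have h1 : ((ContinuousLinearMap.id ℝ (EuclideanSpace ℝ (Fin n)) +
      t • (innerSL ℝ x).smulRight x : EuclideanSpace ℝ (Fin n) →L[ℝ] EuclideanSpace ℝ (Fin n)) :
      EuclideanSpace ℝ (Fin n) →ₗ[ℝ] EuclideanSpace ℝ (Fin n)) =
      LinearMap.transvection (innerSL ℝ x : EuclideanSpace ℝ (Fin n) →ₗ[ℝ] ℝ) (t • x) := by
    ext1 y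
    simp [LinearMap.transvection, smul_smul, mul_comm]
  have h2 := LinearMap.transvection.det (innerSL ℝ x : EuclideanSpace ℝ (Fin n) →ₗ[ℝ] ℝ) (t • x)
  have h3 : (LinearMap.det ((ContinuousLinearMap.id ℝ (EuclideanSpace ℝ (Fin n)) +
      t • (innerSL ℝ x).smulRight x : EuclideanSpace ℝ (Fin n) →L[ℝ] EuclideanSpace ℝ (Fin n)) :
      EuclideanSpace ℝ (Fin n) →ₗ[ℝ] EuclideanSpace ℝ (Fin n))) = 1 + t * ‖x‖ ^ 2 := by
    rw [h1, h2]
    simp
  unfold ContinuousLinearMap.det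
  rw [ContinuousLinearMap.toLinearMap_comp, LinearMap.det_comp, h3]

theorem lewis_core {v : Fin N → EuclideanSpace ℝ (Fin n)} (hn : 0 < n)
    (hv : Submodule.span ℝ (Set.range v) = ⊤) :
    ∃ B : EuclideanSpace ℝ (Fin n) →L[ℝ] EuclideanSpace ℝ (Fin n), B.det ≠ 0 ∧
      ∀ x, (n : ℝ) * ∑ i, inner ℝ (B (v i)) x ^ 2 / ‖B (v i)‖ = ‖x‖ ^ 2 := by
  obtain ⟨B, hB0, hB1, key⟩ := exists_max hn hv
  refine ⟨B, hB0, fun x => ?_⟩
  set w := fun i => B (v i) with hw
  have hterm : ∀ i, HasDerivAt (fun t : ℝ => ‖w i + t • (inner ℝ x (w i) • x)‖)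
      (inner ℝ (w i) x ^ 2 / ‖w i‖) 0 := by
    intro i
    by_cases hi : w i = 0
    · simp only [hi, inner_zero_right, zero_smul, smul_zero, add_zero, norm_zero, inner_zero_left,
        div_zero]
      exact hasDerivAt_const _ _
    · convert hasDerivAt_norm_line hi (inner ℝ x (w i) • x) using 1
      rw [inner_smul_right, real_inner_comm x (w i)]
      ring
  have hsum : HasDerivAt (fun t : ℝ => ∑ i, ‖w i + t • (inner ℝ x (w i) • x)‖)
      (∑ i, inner ℝ (w i) x ^ 2 / ‖w i‖) 0 :=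
    HasDerivAt.fun_sum fun i _ => hterm i
  have hpow := hsum.pow n
  have hlin : HasDerivAt (fun t : ℝ => 1 + t * ‖x‖ ^ 2) (‖x‖ ^ 2) 0 := by
    simpa using ((hasDerivAt_id (0 : ℝ)).mul_const (‖x‖ ^ 2)).const_add 1
  have hg := hpow.sub hlin
  have h0 : ∑ i, ‖w i + (0 : ℝ) • (inner ℝ x (w i) • x)‖ = 1 := by
    simpa [lewF] using hB1
  have hmin : IsLocalMin ((fun t : ℝ => ∑ i, ‖w i + t • (inner ℝ x (w i) • x)‖) ^ n -
      fun t : ℝ => 1 + t * ‖x‖ ^ 2) 0 := by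
    refine Filter.Eventually.of_forall fun t => ?_
    simp only [Pi.sub_apply, Pi.pow_apply, h0]
    have h1 := key ((ContinuousLinearMap.id ℝ (EuclideanSpace ℝ (Fin n)) +
      t • (innerSL ℝ x).smulRight x).comp B)
    rw [det_rankOne, abs_mul] at h1
    have h2 : 0 < |B.det| := abs_pos.2 hB0
    have h3 : |1 + t * ‖x‖ ^ 2| ≤ lewF v ((ContinuousLinearMap.id ℝ (EuclideanSpace ℝ (Fin n)) +
      t • (innerSL ℝ x).smulRight x).comp B) ^ n := by
      have := h1
      rw [mul_comm |B.det|] at this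
      exact le_of_mul_le_mul_right this h2
    have h4 : lewF v ((ContinuousLinearMap.id ℝ (EuclideanSpace ℝ (Fin n)) +
      t • (innerSL ℝ x).smulRight x).comp B) = ∑ i, ‖w i + t • (inner ℝ x (w i) • x)‖ := by
      unfold lewF
      refine sum_congr rfl fun i _ => ?_
      simp [hw]
    rw [h4] at h3
    have h5 := (le_abs_self _).trans h3
    simp only [one_pow, zero_mul, add_zero, sub_self]
    linarith
  have hz := hmin.hasDerivAt_eq_zero hg
  rw [h0, one_pow, mul_one] at hz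
  linarith

/-- **Lewis position.** -/
theorem lewisStatement : LewisStatement := by
  intro n N v _ hker
  rcases Nat.eq_zero_or_pos n with hn | hn
  · subst hn
    refine ⟨LinearEquiv.refl ℝ _, fun x y => ?_⟩
    have hx : x = 0 := Subsingleton.elim _ _
    subst hx
    simp
  have hspan : Submodule.span ℝ (Set.range v) = ⊤ := by
    rw [← Submodule.orthogonal_eq_bot_iff, eq_bot_iff]
    intro x hx
    rw [Submodule.mem_bot]
    refine hker x fun i => ?_
    exact (Submodule.mem_orthogonal _ x).1 hx (v i) (Submodule.subset_span ⟨i, rfl⟩)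
  obtain ⟨B, hB0, hB⟩ := lewis_core hn hspan
  have hn0 : (n : ℝ) ≠ 0 := by exact_mod_cast hn.ne'
  have hnpos : (0 : ℝ) < n := by exact_mod_cast hn
  set L : E n →ₗ[ℝ] E n := (n : ℝ) • (B : E n →ₗ[ℝ] E n) with hL
  have hdet : LinearMap.det L ≠ 0 := by
    rw [hL, LinearMap.det_smul]
    exact mul_ne_zero (pow_ne_zero _ hn0) hB0
  have hunit : IsUnit (LinearMap.det L) := isUnit_iff_ne_zero.2 hdet
  refine ⟨LinearMap.equivOfIsUnitDet hunit, ?_⟩
  have happ : ∀ x, (LinearMap.equivOfIsUnitDet hunit) x = (n : ℝ) • B x := by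
    intro x
    rw [LinearMap.equivOfIsUnitDet_apply]
    rfl
  have hq : ∀ x : E n, ∑ i, inner ℝ ((n : ℝ) • B (v i)) x ^ 2 / ‖(n : ℝ) • B (v i)‖ =
      ‖x‖ ^ 2 := by
    intro x
    rw [← hB x, mul_sum]
    refine sum_congr rfl fun i _ => ?_
    rw [real_inner_smul_left, norm_smul, Real.norm_of_nonneg hnpos.le]
    by_cases h : ‖B (v i)‖ = 0
    · rw [h]; simp
    · field_simp
  intro x y
  simp only [happ]
  have h1 := hq (x + y)
  have h2 := hq (x - y)
  have h3 : ∑ i, inner ℝ ((n : ℝ) • B (v i)) x * inner ℝ ((n : ℝ) • B (v i)) y /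
      ‖(n : ℝ) • B (v i)‖ =
      (∑ i, inner ℝ ((n : ℝ) • B (v i)) (x + y) ^ 2 / ‖(n : ℝ) • B (v i)‖ -
        ∑ i, inner ℝ ((n : ℝ) • B (v i)) (x - y) ^ 2 / ‖(n : ℝ) • B (v i)‖) / 4 := by
    rw [← sum_sub_distrib, sum_div]
    refine sum_congr rfl fun i _ => ?_
    rw [inner_add_right, inner_sub_right]
    ring
  rw [h3, h1, h2, norm_add_sq_real, norm_sub_sq_real]
  ring

end Pool.Agent.Lib.MP_2c1b2b_gt.H45
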